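import Mathlib

/-!
# A simple solution of the Yang-Baxter equation with blocks whose size does not divide their number

A simple involutive non-degenerate solution of size `12` on `Y × Z` with `|Y| = 3`, `|Z| = 4`,
whose permutation group (of order `24`) has the fibres `X_y` as blocks of imprimitivity.
-/

open Equiv

namespace Pool.Agent.Results.MP_9f168b_al.NonDividingBlocks

/-- `r × id` on `X³`. -/
def r12 {X : Type} (r : X × X → X × X) (q : X × X × X) : X × X × X :=
  ((r (q.1, q.2.1)).1, (r (q.1, q.2.1)).2, q.2.2)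

/-- `id × r` on `X³`. -/
def r23 {X : Type} (r : X × X → X × X) (q : X × X × X) : X × X × X :=
  (q.1, r q.2)

/-- Involutive non-degenerate solutions of the Yang-Baxter equation. -/
structure IsSolution {X : Type} (r : X × X → X × X) : Prop where
  nonempty : Nonempty X
  invol : ∀ q, r (r q) = q
  braid : ∀ q, r12 r (r23 r (r12 r q)) = r23 r (r12 r (r23 r q))
  bij_sigma : ∀ x, Function.Bijective (fun y => (r (x, y)).1)
  bij_tau : ∀ y, Function.Bijective (fun x => (r (x, y)).2)

/-- The permutation `σ_x`. -/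
noncomputable def IsSolution.sigma {X : Type} {r : X × X → X × X} (h : IsSolution r) (x : X) :
    Perm X :=
  Equiv.ofBijective (fun y => (r (x, y)).1) (h.bij_sigma x)

/-- The permutation group `𝒢(X,r)`. -/
noncomputable def IsSolution.GG {X : Type} {r : X × X → X × X} (h : IsSolution r) :
    Subgroup (Perm X) :=
  Subgroup.closure (Set.range h.sigma)

/-- Homomorphisms of solutions. -/
def IsHom {X X' : Type} (r : X × X → X × X) (r' : X' × X' → X' × X') (f : X → X') : Prop :=
  ∀ q, Prod.map f f (r q) = r' (Prod.map f f q)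

/-- Simple solutions: `|X| > 1`, and every epimorphism onto a solution is bijective or has a target
with one element. -/
def Simple {X : Type} (r : X × X → X × X) : Prop :=
  IsSolution r ∧ Nontrivial X ∧
    ∀ (X' : Type) (r' : X' × X' → X' × X') (f : X → X'),
      IsSolution r' → IsHom r r' f → Function.Surjective f →
        Function.Bijective f ∨ Nat.card X' = 1

/-- The sets `X_y = {y} × Z` are blocks of imprimitivity for `𝒢(X,r)`. -/
def FibresAreBlocks {Y Z : Type} {r : (Y × Z) × (Y × Z) → (Y × Z) × (Y × Z)}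
    (h : IsSolution r) : Prop :=
  ∀ g ∈ h.GG, ∀ y : Y, ∃ y' : Y, g '' {x | x.1 = y} = {x | x.1 = y'}

/-! ### The general criterion -/

/-- The map `r(x,y) = (σ_x(y), σ_{σ_x(y)}⁻¹(x))`. -/
def rMap {X : Type} (σ : X → Perm X) (q : X × X) : X × X :=
  (σ q.1 q.2, (σ (σ q.1 q.2)).symm q.1)

theorem braid_of {X : Type} {σ : X → Perm X}
    (h : ∀ x y, σ x * σ ((σ x).symm y) = σ y * σ ((σ y).symm x)) :
    ∀ q, r12 (rMap σ) (r23 (rMap σ) (r12 (rMap σ) q)) =
      r23 (rMap σ) (r12 (rMap σ) (r23 (rMap σ) q)) := by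
  rintro ⟨x, y, z⟩
  have h' : ∀ x y w, σ x (σ ((σ x).symm y) w) = σ y (σ ((σ y).symm x) w) := fun x y w =>
    DFunLike.congr_fun (h x y) w
  have h1 : ∀ x y w, σ x (σ y w) = σ (σ x y) (σ ((σ (σ x y)).symm x) w) := by
    intro x y w
    have := h' x (σ x y) w
    rwa [symm_apply_apply] at this
  set u := σ x y with hu
  set v := (σ u).symm x with hv
  have e1 : σ x (σ y z) = σ u (σ v z) := h1 x y z
  set t := σ x (σ y z) with ht
  set a := (σ t).symm x with ha
  set b := (σ (σ y z)).symm y with hb
  have e2 : σ a b = (σ t).symm u := by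
    apply (σ t).injective
    rw [apply_symm_apply]
    have h2 := h1 x (σ y z) b
    rw [← ht, ← ha] at h2
    rw [← h2, hb, apply_symm_apply]
  have e3 : (σ (σ a b)).symm a = (σ (σ v z)).symm v := by
    rw [e2]
    set s := (σ t).symm u with hs
    apply (σ s).injective
    rw [apply_symm_apply]
    apply (σ t).injective
    have h2 := h' t u ((σ (σ v z)).symm v)
    have h3 : (σ u).symm t = σ v z := by rw [e1, symm_apply_apply]
    rw [h3, ← hs, apply_symm_apply] at h2
    rw [h2, ha, apply_symm_apply, hv, apply_symm_apply]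
  show (σ u (σ v z), (σ (σ u (σ v z))).symm u, (σ (σ v z)).symm v) =
    (t, σ a b, (σ (σ a b)).symm a)
  rw [← e1, e2] at *
  rw [← e3]

/-! ### The solution of size 12 -/

/-- The underlying set. -/
abbrev X12 : Type := Fin 3 × Fin 4

/-- Index of an element. -/
def ix (x : X12) : ℕ := 4 * x.1.val + x.2.val

/-- Element with a given index. -/
def el (n : ℕ) : X12 := (⟨n / 4 % 3, Nat.mod_lt _ (by norm_num)⟩, ⟨n % 4, Nat.mod_lt _ (by norm_num)⟩)

/-- The table of the maps `σ_x` (base `16` digits). -/
def tab : ℕ := 0x2139b8a5476647510328a9b10326475a8b99b8a021345675746130289ab0123a8b96475a8b9012346571302574698ba312098ba574654762031b9a8203154769b8a98ba31207564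

/-- The table of the maps `σ_x⁻¹` (base `16` digits). -/
def tabi : ℕ := 0x647510328a9b02139b8a54761302574698baa8b9012346570123a8b964755746130289ab9b8a0213456710326475a8b954762031b9a8312098ba5746203154769b8a98ba31207564

/-- `σ_x(y)`. -/
def s (x y : X12) : X12 := el (tab / 16 ^ (12 * ix x + ix y) % 16)

/-- `σ_x⁻¹(y)`. -/
def si (x y : X12) : X12 := el (tabi / 16 ^ (12 * ix x + ix y) % 16)

theorem s_si : ∀ x y : X12, s x (si x y) = y := by decide +kernel

theorem si_s : ∀ x y : X12, si x (s x y) = y := by decide +kernel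

theorem s_cyc : ∀ x y w : X12, s x (s (si x y) w) = s y (s (si y x) w) := by decide +kernel

theorem tau_inj : ∀ y x x' : X12, si (s x y) x = si (s x' y) x' → x = x' := by decide +kernel

theorem s_block : ∀ x y y' : X12, y.1 = y'.1 → (s x y).1 = (s x y').1 := by decide +kernel

/-- The permutation `σ_x`. -/
def sg (x : X12) : Perm X12 where
  toFun := s x
  invFun := si x
  left_inv := si_s x
  right_inv := s_si x

theorem isSolution : IsSolution (rMap sg) where
  nonempty := inferInstance
  invol := by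
    rintro ⟨x, y⟩
    show (sg (sg x y) ((sg (sg x y)).symm x), (sg (sg (sg x y) ((sg (sg x y)).symm x))).symm
      (sg x y)) = (x, y)
    rw [apply_symm_apply, symm_apply_apply]
  braid := by
    apply braid_of
    intro x y
    apply Equiv.ext
    intro w
    exact s_cyc x y w
  bij_sigma x := (sg x).bijective
  bij_tau y := Finite.injective_iff_bijective.mp fun x x' h => tau_inj y x x' h

/-! ### Simplicity by certified congruence closure -/

/-- One step of the closure: `n` encodes `a + 16 b + 256 z + 4096 k`; if `a` and `b` have the same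
label, then the labels of `σ_z a`, `σ_z b` (for `k = 0`) or of `σ_a z`, `σ_b z` (otherwise) are
merged. -/
def step (l : List ℕ) (n : ℕ) : List ℕ :=
  let a := n % 16
  let b := n / 16 % 16
  let z := n / 256 % 16
  if l.getD (ix (el a)) 0 = l.getD (ix (el b)) 0 then
    let c := if n / 4096 = 0 then s (el z) (el a) else s (el a) (el z)
    let d := if n / 4096 = 0 then s (el z) (el b) else s (el b) (el z)
    let lc := l.getD (ix c) 0
    let ld := l.getD (ix d) 0
    l.map fun t => if t = ld then lc else t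
  else l

/-- Certificates for the pairs `0, q` with `q ≠ 0`. -/
def certs : List (List ℕ) :=
  [[], [16, 4112, 272, 4624, 4880, 1040, 5136, 1296, 5392, 5904],
   [32, 4128, 288, 4384, 544, 800, 1056, 5152, 5136, 5904],
   [48, 4144, 304, 560, 4656, 5168, 5424, 5680, 144, 4240],
   [4160, 320, 4416, 576, 4672, 4928, 1344, 5440, 32, 1296],
   [80, 4176, 336, 4432, 592, 848, 5200, 4144, 544, 5152],
   [96, 4192, 352, 4448, 608, 1120, 4624, 4880, 5392, 5904],
   [112, 4208, 368, 4464, 624, 4720, 4976, 32, 4128, 5152],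
   [128, 4224, 384, 640, 4192, 4448, 4624, 4880, 5392, 5904],
   [144, 4240, 4160, 320, 576, 4672, 4928, 1344, 560, 5392],
   [160, 4256, 4512, 4768, 80, 4176, 336, 4384, 5152, 5904],
   [176, 4272, 432, 4528, 688, 4784, 944, 1200, 5296, 4112]]

/-- The initial labels: `q` gets the label `0`. -/
def init (q : X12) : List ℕ := (List.range 12).map fun i => if i = ix q then 0 else i

/-- The final labels. -/
def fin (q : X12) : List ℕ := (certs.getD (ix q) []).foldl step (init q)

theorem fin_const : ∀ q x : X12, q ≠ (0, 0) → (fin q).getD (ix x) 0 = (fin q).getD 0 0 := by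
  decide +kernel

theorem ix_lt : ∀ x : X12, ix x < 12 := by decide +kernel

/-- Words leading to `0`. -/
def w1 (a : X12) : X12 := el (0x100110010000 / 16 ^ ix a % 16)

/-- Words leading to `0`. -/
def w2 (a : X12) : X12 := el (0x527061435630 / 16 ^ ix a % 16)

theorem reach : ∀ a : X12, s (w1 a) (s (w2 a) a) = (0, 0) := by decide +kernel

/-- Soundness invariant. -/
def Inv {X' : Type} (f : X12 → X') (l : List ℕ) : Prop :=
  l.length = 12 ∧ ∀ x y : X12, l.getD (ix x) 0 = l.getD (ix y) 0 → f x = f y

theorem getD_map (l : List ℕ) (g : ℕ → ℕ) (i : ℕ) (hi : i < l.length) :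
    (l.map g).getD i 0 = g (l.getD i 0) := by
  rw [List.getD_eq_getElem _ _ (by simpa using hi), List.getD_eq_getElem _ _ hi, List.getElem_map]

theorem inv_merge {X' : Type} {f : X12 → X'} {l : List ℕ} (h : Inv f l) (c d : X12)
    (hcd : f c = f d) :
    Inv f (l.map fun t => if t = l.getD (ix d) 0 then l.getD (ix c) 0 else t) := by
  obtain ⟨h1, h2⟩ := h
  refine ⟨by simpa using h1, ?_⟩
  intro x y hxy
  rw [getD_map _ _ _ (by rw [h1]; exact ix_lt x), getD_map _ _ _ (by rw [h1]; exact ix_lt y)] at hxy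
  by_cases hx : l.getD (ix x) 0 = l.getD (ix d) 0
  · rw [if_pos hx] at hxy
    by_cases hy : l.getD (ix y) 0 = l.getD (ix d) 0
    · rw [h2 x d hx, h2 y d hy]
    · rw [if_neg hy] at hxy
      rw [h2 x d hx, ← hcd, h2 c y hxy]
  · rw [if_neg hx] at hxy
    by_cases hy : l.getD (ix y) 0 = l.getD (ix d) 0
    · rw [if_pos hy] at hxy
      rw [h2 y d hy, ← hcd, h2 x c hxy]
    · rw [if_neg hy] at hxy
      exact h2 x y hxy

theorem inv_step {X' : Type} {f : X12 → X'} (hf1 : ∀ a b z, f a = f b → f (s z a) = f (s z b))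
    (hf2 : ∀ a b z, f a = f b → f (s a z) = f (s b z)) {l : List ℕ} (h : Inv f l) (n : ℕ) :
    Inv f (step l n) := by
  unfold step
  simp only
  by_cases h1 : l.getD (ix (el (n % 16))) 0 = l.getD (ix (el (n / 16 % 16))) 0
  · rw [if_pos h1]
    by_cases h2 : n / 4096 = 0
    · simp only [if_pos h2]
      exact inv_merge h _ _ (hf1 _ _ _ (h.2 _ _ h1))
    · simp only [if_neg h2]
      exact inv_merge h _ _ (hf2 _ _ _ (h.2 _ _ h1))
  · rw [if_neg h1]
    exact h

theorem inv_foldl {X' : Type} {f : X12 → X'} (hf1 : ∀ a b z, f a = f b → f (s z a) = f (s z b))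
    (hf2 : ∀ a b z, f a = f b → f (s a z) = f (s b z)) (L : List ℕ) :
    ∀ l, Inv f l → Inv f (L.foldl step l) := by
  induction L with
  | nil => intro l h; exact h
  | cons n L ih => intro l h; exact ih _ (inv_step hf1 hf2 h n)

theorem init_spec : ∀ q x y : X12, (init q).getD (ix x) 0 = (init q).getD (ix y) 0 →
    x = y ∨ (x = q ∧ y = (0, 0)) ∨ (x = (0, 0) ∧ y = q) := by decide +kernel

theorem inv_init {X' : Type} {f : X12 → X'} {q : X12} (hq : f (0, 0) = f q) :
    Inv f (init q) := by
  refine ⟨by simp [init], ?_⟩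
  intro x y hxy
  rcases init_spec q x y hxy with rfl | ⟨rfl, rfl⟩ | ⟨rfl, rfl⟩
  · rfl
  · exact hq.symm
  · exact hq

theorem const_of {X' : Type} {f : X12 → X'} (hf1 : ∀ a b z, f a = f b → f (s z a) = f (s z b))
    (hf2 : ∀ a b z, f a = f b → f (s a z) = f (s b z)) {a b : X12} (hab : a ≠ b)
    (h : f a = f b) : ∀ x, f x = f (0, 0) := by
  obtain ⟨q, hq0, hq⟩ : ∃ q : X12, q ≠ (0, 0) ∧ f (0, 0) = f q := by
    refine ⟨s (w1 a) (s (w2 a) b), ?_, ?_⟩
    · intro h0
      apply hab
      have h1 := h0.trans (reach a).symm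
      have h2 := congrArg (si (w1 a)) h1
      rw [si_s, si_s] at h2
      have h3 := congrArg (si (w2 a)) h2
      rw [si_s, si_s] at h3
      exact h3.symm
    · rw [← reach a]
      exact hf1 _ _ _ (hf1 _ _ _ h)
  intro x
  have hinv : Inv f (fin q) := inv_foldl hf1 hf2 _ _ (inv_init hq)
  apply hinv.2
  rw [fin_const q x hq0]
  rfl

theorem simple : Simple (rMap sg) := by
  refine ⟨isSolution, inferInstance, ?_⟩
  intro X' r' f _ hf hsurj
  by_cases hinj : Function.Injective f
  · exact Or.inl ⟨hinj, hsurj⟩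
  · right
    have hhom : ∀ a z, f (s a z) = (r' (f a, f z)).1 := by
      intro a z
      have h := hf (a, z)
      have h1 := congrArg Prod.fst h
      exact h1
    obtain ⟨a, b, hab, hne⟩ : ∃ a b, f a = f b ∧ a ≠ b := by
      unfold Function.Injective at hinj
      push Not at hinj
      obtain ⟨a, b, h1, h2⟩ := hinj
      exact ⟨a, b, h1, h2⟩
    have hconst := const_of (f := f) (fun a b z h => by rw [hhom, hhom, h])
      (fun a b z h => by rw [hhom, hhom, h]) hne hab
    rw [Nat.card_eq_one_iff_unique]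
    refine ⟨⟨fun u v => ?_⟩, ⟨f (0, 0)⟩⟩
    obtain ⟨u', rfl⟩ := hsurj u
    obtain ⟨v', rfl⟩ := hsurj v
    rw [hconst u', hconst v']

theorem fibresAreBlocks : FibresAreBlocks isSolution := by
  have key : ∀ g ∈ isSolution.GG, ∀ x x' : X12, x.1 = x'.1 ↔ (g x).1 = (g x').1 := by
    have hblock : ∀ x y y' : X12, y.1 = y'.1 ↔ (s x y).1 = (s x y').1 := by decide +kernel
    intro g hg
    induction hg using Subgroup.closure_induction with
    | mem g hg =>
      obtain ⟨x, rfl⟩ := hg
      intro y y'
      exact hblock x y y'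
    | one => intro x x'; rfl
    | mul a b _ _ iha ihb =>
      intro x x'
      rw [Perm.mul_apply, Perm.mul_apply, ← iha, ← ihb]
    | inv a _ iha =>
      intro x x'
      have := iha (a⁻¹ x) (a⁻¹ x')
      have e : ∀ w, a (a⁻¹ w) = w := fun w => a.apply_symm_apply w
      rw [e, e] at this
      exact this.symm
  intro g hg y
  refine ⟨(g (y, 0)).1, ?_⟩
  ext x
  constructor
  · rintro ⟨w, hw, rfl⟩
    exact (key g hg w (y, 0)).mp hw
  · intro hx
    refine ⟨g.symm x, ?_, g.apply_symm_apply x⟩
    apply (key g hg _ (y, 0)).mpr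
    rw [apply_symm_apply]
    exact hx

/-- **Theorem.** There is a finite simple solution `(X, r)` of the Yang-Baxter equation with
`X = Y × Z`, `|Y|, |Z| > 1`, whose sets `X_y` are blocks of imprimitivity for `𝒢(X,r)`, such that
`|Z|` does not divide `|Y|` (in fact `|Y| = 3` and `|Z| = 4`). -/
theorem result : ∃ (Y Z : Type) (_ : Finite Y) (_ : Finite Z)
    (r : (Y × Z) × (Y × Z) → (Y × Z) × (Y × Z)) (h : IsSolution r),
    Nat.card Y = 3 ∧ Nat.card Z = 4 ∧ 1 < Nat.card Y ∧ 1 < Nat.card Z ∧
      Simple r ∧ FibresAreBlocks h ∧ ¬ Nat.card Z ∣ Nat.card Y := by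
  refine ⟨Fin 3, Fin 4, inferInstance, inferInstance, rMap sg, isSolution, ?_, ?_, ?_, ?_, simple,
    fibresAreBlocks, ?_⟩ <;> simp

end Pool.Agent.Results.MP_9f168b_al.NonDividingBlocks
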